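import Pool.Agent.Helper20.EQ.St5

/-!
# Project EQ (MP_cb927e_an): module DMP, the domination
-/

set_option autoImplicit false

open MeasureTheory Set Filter Topology
open scoped ENNReal RealInnerProductSpace

namespace Pool.Agent.Helper57.EQ

open Pool.Agent.Helper68.LM (Pl BB Bd Av HL ft fm DQ)
open Pool.Agent.Helper20.RG
open Pool.Agent.Helper20.EQ
open Pool.Agent.Helper68.EP (elt GapP StGPG)

lemma fh_nonneg_DMP (l : ℤ) (f : Pl → ℝ) (hf : ∀ x, 0 ≤ f x) (x : Pl) : 0 ≤ fh l f x := by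
  unfold fh
  split_ifs
  · exact hf x
  · exact le_rfl

lemma fh_le_DMP (l : ℤ) (f : Pl → ℝ) (hf : ∀ x, 0 ≤ f x) (x : Pl) : fh l f x ≤ f x := by
  unfold fh
  split_ifs
  · exact le_rfl
  · exact hf x

lemma le_fh_DMP (l : ℤ) (f : Pl → ℝ) (x : Pl) (hf : ∀ x, 0 ≤ f x) :
    f x ≤ (2 : ℝ) ^ (l - 1) + fh l f x := by
  have h2 : (0 : ℝ) < (2 : ℝ) ^ (l - 1) := by positivity
  unfold fh
  split_ifs with h
  · linarith
  · linarith [not_le.mp h]

lemma BB_fh_DMP (l : ℤ) (f : Pl → ℝ) (hB : BB f) (hf : ∀ x, 0 ≤ f x) : BB (fh l f) := by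
  obtain ⟨hm, K, hK, hK0⟩ := hB
  refine ⟨?_, K, fun x => ?_, fun x hx => ?_⟩
  · unfold fh
    exact Measurable.ite (measurableSet_le measurable_const hm) hm measurable_const
  · rw [abs_of_nonneg (fh_nonneg_DMP l f hf x)]
    exact (fh_le_DMP l f hf x).trans ((le_abs_self _).trans (hK x))
  · unfold fh
    rw [hK0 x hx]
    simp

lemma arc_univ_DMP (c : Pl) (φ : ℝ → ℝ) : arc c φ univ ≤ 1 := by
  unfold arc
  by_cases h : AEMeasurable (fun t : ℝ => c + pt t (φ t)) (volume.restrict (Icc (0 : ℝ) 1))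
  · rw [Measure.map_apply_of_aemeasurable h MeasurableSet.univ]
    simp
  · rw [Measure.map_of_not_aemeasurable h]
    simp

lemma Av_le_DMP (c : Pl) (φ : ℝ → ℝ) (l : ℤ) (t : ℝ) (f : Pl → ℝ) (hB : BB f)
    (hf : ∀ x, 0 ≤ f x) (x : Pl) :
    Av (arc c φ) t f x ≤ (2 : ℝ) ^ (l - 1) + Av (arc c φ) t (fh l f) x := by
  have h1 := arc_univ_DMP c φ
  haveI : IsFiniteMeasure (arc c φ) := ⟨lt_of_le_of_lt h1 ENNReal.one_lt_top⟩
  have hint : ∀ g : Pl → ℝ, BB g → Integrable (fun y => g (x - t • y)) (arc c φ) := by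
    intro g hg
    obtain ⟨hm, K, hK, -⟩ := hg
    have hm' : Measurable (fun y : Pl => g (x - t • y)) := hm.comp (by fun_prop)
    exact Integrable.of_bound hm'.aestronglyMeasurable K
      (Filter.Eventually.of_forall fun y => by rw [Real.norm_eq_abs]; exact hK _)
  have hi1 := hint f hB
  have hi2 := hint (fh l f) (BB_fh_DMP l f hB hf)
  unfold Av
  have hc : Integrable (fun _ : Pl => (2 : ℝ) ^ (l - 1)) (arc c φ) := integrable_const _
  have h3 : ∫ y, f (x - t • y) ∂(arc c φ) ≤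
      ∫ y, ((2 : ℝ) ^ (l - 1) + fh l f (x - t • y)) ∂(arc c φ) :=
    integral_mono hi1 (hc.add hi2) (fun y => le_fh_DMP l f _ hf)
  rw [integral_add hc hi2] at h3
  have h4 : ∫ _y : Pl, (2 : ℝ) ^ (l - 1) ∂(arc c φ) ≤ (2 : ℝ) ^ (l - 1) := by
    rw [integral_const, smul_eq_mul]
    have h5 : (arc c φ).real univ ≤ 1 := by
      unfold Measure.real
      have := ENNReal.toReal_mono ENNReal.one_ne_top h1
      simpa using this
    have h6 : (0 : ℝ) < (2 : ℝ) ^ (l - 1) := by positivity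
    nlinarith
  linarith

lemma sum_sq_DMP (n : ℕ) : ∑ i ∈ Finset.range n, (1 : ℝ) / ((i + 2 : ℕ) : ℝ) ^ 2 ≤
    1 - 1 / ((n : ℝ) + 1) := by
  induction n with
  | zero => simp
  | succ n ih =>
    rw [Finset.sum_range_succ]
    have h : (1 : ℝ) / ((n + 2 : ℕ) : ℝ) ^ 2 ≤ 1 / ((n : ℝ) + 1) - 1 / (((n + 1 : ℕ) : ℝ) + 1) := by
      push_cast
      have hn : (0 : ℝ) ≤ n := Nat.cast_nonneg n
      rw [div_sub_div _ _ (by positivity) (by positivity), div_le_div_iff₀ (by positivity)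
        (by positivity)]
      nlinarith
    linarith

lemma tsum_sq_DMP (a : ℝ) (ha : 0 ≤ a) :
    ∑' i : ℕ, ENNReal.ofReal (a / ((i + 2 : ℕ) : ℝ) ^ 2) ≤ ENNReal.ofReal a := by
  refine ENNReal.tsum_le_of_sum_range_le fun n => ?_
  rw [← ENNReal.ofReal_sum_of_nonneg (fun i _ => by positivity)]
  apply ENNReal.ofReal_le_ofReal
  have h1 := sum_sq_DMP n
  have h2 : ∑ i ∈ Finset.range n, a / ((i + 2 : ℕ) : ℝ) ^ 2 =
      a * ∑ i ∈ Finset.range n, (1 : ℝ) / ((i + 2 : ℕ) : ℝ) ^ 2 := by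
    rw [Finset.mul_sum]
    exact Finset.sum_congr rfl fun i _ => by ring
  rw [h2]
  have h3 : (0 : ℝ) ≤ 1 / ((n : ℝ) + 1) := by positivity
  nlinarith

lemma step_DMP (c : Pl) (φ τ : ℝ → ℝ) (u : ℕ) (k : ℤ) (g : Pl → ℝ) (x : Pl) :
    ‖Sa c φ τ u k g x - Sa c φ τ (u - 1) k g x‖ₑ ≤ ‖er c φ τ u k g x‖ₑ + Ht c φ τ u k g x := by
  have h1 : Sa c φ τ u k g x - Sa c φ τ (u - 1) k g x = er c φ τ u k g x +
      (1 / (2 : ℝ) ^ u) * ∑ j ∈ Finset.range (2 ^ u), Zc c φ τ u 0 k j g x := by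
    unfold er; ring
  rw [h1]
  refine (enorm_add_le _ _).trans (add_le_add le_rfl ?_)
  unfold Ht
  rw [enorm_mul]
  refine mul_le_mul' ?_ ?_
  · rw [Real.enorm_eq_ofReal (by positivity)]
  · exact enorm_sum_le _ _

/-- Module DMP. -/
theorem hDMP (_hPT : StPT) (_hYB : StYB) (hDOM : StDOM) (hLOW : StLOW) (hGPG : StGPG) : StDMP := by
  intro φ τ A p c hG hA hgap hp
  obtain ⟨CL, hCL1, hCL⟩ := hLOW φ τ A p c hG hA hgap hp
  have hp0 : 0 < p := by linarith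
  have hgap' := hGPG τ A p hA hp0 hgap
  have hA' : 0 < A ^ (1 / p) := Real.rpow_pos_of_pos hA _
  refine ⟨4 * CL + 9, by linarith, ?_⟩
  intro R₀ f hR hB hf
  have hae : ∀ᵐ x : Pl, ∀ l : ℤ, ∀ k : ℤ,
      ENNReal.ofReal (Av (arc c φ) ((2 : ℝ) ^ k) (fh l f) x) ≤
        ENNReal.ofReal (4 * Sa c φ τ 1 k (fh l f) x) +
        4 * ∑' i : ℕ, ‖Sa c φ τ (1 + i + 1) k (fh l f) x - Sa c φ τ (1 + i) k (fh l f) x‖ₑ := by
    rw [ae_all_iff]
    intro l
    exact hDOM φ τ (A ^ (1 / p)) p c hG hgap' hA' hp0 1 le_rfl (fh l f) (BB_fh_DMP l f hB hf)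
      (fh_nonneg_DMP l f hf)
  filter_upwards [hae] with x hx
  intro k l hgd hlt
  by_contra hcon
  rw [not_or] at hcon
  obtain ⟨hn1, hn2⟩ := hcon
  have h2l : (0 : ℝ) < (2 : ℝ) ^ l := by positivity
  have her : ∀ u : ℕ, 2 ≤ u → |er c φ τ u k (fh l f) x| < (2 : ℝ) ^ l / (u : ℝ) ^ 2 := by
    intro u hu
    by_contra hc
    exact hn1 ⟨u, hu, not_lt.mp hc⟩
  have hHt := not_le.mp hn2
  have hlow := hCL R₀ f l k x (by linarith) hB hf hgd
  have hdom := hx l k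
  -- the sum of the steps
  have hs1 : ∑' i : ℕ, ‖Sa c φ τ (1 + i + 1) k (fh l f) x - Sa c φ τ (1 + i) k (fh l f) x‖ₑ ≤
      ∑' i : ℕ, (ENNReal.ofReal ((2 : ℝ) ^ l / ((i + 2 : ℕ) : ℝ) ^ 2) +
        Ht c φ τ (i + 2) k (fh l f) x) := by
    refine ENNReal.tsum_le_tsum fun i => ?_
    have h := step_DMP c φ τ (i + 2) k (fh l f) x
    have e1 : i + 2 - 1 = 1 + i := by omega
    have e2 : 1 + i + 1 = i + 2 := by omega
    rw [e1] at h
    rw [e2]
    refine h.trans (add_le_add ?_ le_rfl)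
    rw [Real.enorm_eq_ofReal_abs]
    exact ENNReal.ofReal_le_ofReal (her (i + 2) (by omega)).le
  have hs2 : ∑' i : ℕ, (ENNReal.ofReal ((2 : ℝ) ^ l / ((i + 2 : ℕ) : ℝ) ^ 2) +
      Ht c φ τ (i + 2) k (fh l f) x) ≤ ENNReal.ofReal ((2 : ℝ) ^ l) +
      ENNReal.ofReal ((2 : ℝ) ^ l) := by
    rw [ENNReal.tsum_add]
    refine add_le_add (tsum_sq_DMP _ h2l.le) ?_
    have h3 : ∑' i : ℕ, Ht c φ τ (i + 2) k (fh l f) x ≤
        ∑' u : ℕ, (if 2 ≤ u then Ht c φ τ u k (fh l f) x else 0) := by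
      have h4 := ENNReal.tsum_comp_le_tsum_of_injective (f := fun i : ℕ => i + 2)
        (fun a b hab => by simpa using hab)
        (fun u : ℕ => if 2 ≤ u then Ht c φ τ u k (fh l f) x else 0)
      refine le_trans (le_of_eq ?_) h4
      refine tsum_congr fun i => ?_
      rw [if_pos (by omega)]
    exact h3.trans hHt.le
  have hAv := Av_le_DMP c φ l ((2 : ℝ) ^ k) f hB hf x
  have h5 : ENNReal.ofReal (Av (arc c φ) ((2 : ℝ) ^ k) f x) ≤
      ENNReal.ofReal ((2 : ℝ) ^ (l - 1)) + (ENNReal.ofReal (4 * (CL * (2 : ℝ) ^ l)) +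
        4 * (ENNReal.ofReal ((2 : ℝ) ^ l) + ENNReal.ofReal ((2 : ℝ) ^ l))) := by
    refine (ENNReal.ofReal_le_ofReal hAv).trans (ENNReal.ofReal_add_le.trans ?_)
    refine add_le_add le_rfl (hdom.trans (add_le_add ?_ ?_))
    · exact ENNReal.ofReal_le_ofReal (by linarith)
    · exact mul_le_mul' le_rfl (hs1.trans hs2)
  have h6 : ENNReal.ofReal ((2 : ℝ) ^ (l - 1)) + (ENNReal.ofReal (4 * (CL * (2 : ℝ) ^ l)) +
        4 * (ENNReal.ofReal ((2 : ℝ) ^ l) + ENNReal.ofReal ((2 : ℝ) ^ l))) =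
      ENNReal.ofReal ((2 : ℝ) ^ (l - 1) + (4 * (CL * (2 : ℝ) ^ l) +
        4 * ((2 : ℝ) ^ l + (2 : ℝ) ^ l))) := by
    rw [ENNReal.ofReal_add (by positivity) (by positivity),
      ENNReal.ofReal_add (by positivity) (by positivity),
      ENNReal.ofReal_mul (p := 4) (q := (2 : ℝ) ^ l + (2 : ℝ) ^ l) (by norm_num),
      ENNReal.ofReal_add h2l.le h2l.le]
    simp
  rw [h6] at h5
  have h7 : (2 : ℝ) ^ (l - 1) ≤ (2 : ℝ) ^ l := by
    apply zpow_le_zpow_right₀ (by norm_num) (by linarith)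
  have h8 : 0 < Av (arc c φ) ((2 : ℝ) ^ k) f x :=
    lt_of_le_of_lt (by positivity) hlt
  have h9 := (ENNReal.ofReal_le_ofReal_iff (by positivity)).mp h5
  nlinarith

end Pool.Agent.Helper57.EQ
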